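import Pool.Agent.N708.MX.Stm

/-!
# Project MX (helper708), part PERM (helper8): Hilbert-Schmidt asymptotic homomorphisms from finite
actions
-/

set_option autoImplicit false

namespace Pool.Agent.N8.MX.PERM

open Filter Topology Pool.Agent.N708.MX Finset

/-! ### The Hilbert-Schmidt norm -/

lemma hs2_eq {d : ℕ} (M : Matrix (Fin d) (Fin d) ℂ) :
    hs2 M = (∑ i, ∑ j, ‖M j i‖ ^ 2) / d := by
  unfold hs2
  congr 1
  rw [Matrix.trace]
  simp only [Matrix.diag_apply, Matrix.mul_apply, Matrix.conjTranspose_apply]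
  rw [Complex.re_sum]
  refine sum_congr rfl fun i _ => ?_
  rw [Complex.re_sum]
  refine sum_congr rfl fun j _ => ?_
  rw [Complex.star_def, ← Complex.normSq_eq_conj_mul_self, Complex.ofReal_re,
    Complex.normSq_eq_norm_sq]

lemma hs2_nonneg {d : ℕ} (M : Matrix (Fin d) (Fin d) ℂ) : 0 ≤ hs2 M := by
  rw [hs2_eq]
  positivity

lemma hs2_add_le {d : ℕ} (M N : Matrix (Fin d) (Fin d) ℂ) :
    hs2 (M + N) ≤ 2 * hs2 M + 2 * hs2 N := by
  rw [hs2_eq, hs2_eq, hs2_eq, mul_div_assoc', mul_div_assoc', ← add_div]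
  refine div_le_div_of_nonneg_right ?_ (Nat.cast_nonneg _)
  rw [mul_sum, mul_sum, ← sum_add_distrib]
  refine sum_le_sum fun i _ => ?_
  rw [mul_sum, mul_sum, ← sum_add_distrib]
  refine sum_le_sum fun j _ => ?_
  rw [Matrix.add_apply]
  have h := norm_add_le (M j i) (N j i)
  have h2 : ‖M j i + N j i‖ ^ 2 ≤ (‖M j i‖ + ‖N j i‖) ^ 2 :=
    pow_le_pow_left₀ (norm_nonneg _) h 2
  nlinarith [sq_nonneg (‖M j i‖ - ‖N j i‖)]

lemma hs2_neg {d : ℕ} (M : Matrix (Fin d) (Fin d) ℂ) : hs2 (-M) = hs2 M := by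
  rw [hs2_eq, hs2_eq]
  simp

lemma hs2_sub_comm {d : ℕ} (M N : Matrix (Fin d) (Fin d) ℂ) : hs2 (M - N) = hs2 (N - M) := by
  rw [← hs2_neg, neg_sub]

lemma hs2_zero {d : ℕ} : hs2 (0 : Matrix (Fin d) (Fin d) ℂ) = 0 := by
  rw [hs2_eq]
  simp

lemma hs2_mul_left {d : ℕ} (u : Matrix.unitaryGroup (Fin d) ℂ) (M : Matrix (Fin d) (Fin d) ℂ) :
    hs2 (u.val * M) = hs2 M := by
  unfold hs2
  have h : u.val.conjTranspose * u.val = 1 := Matrix.mem_unitaryGroup_iff'.1 u.2
  rw [Matrix.conjTranspose_mul, Matrix.mul_assoc, ← Matrix.mul_assoc u.val.conjTranspose, h,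
    Matrix.one_mul]

lemma hs2_mul_right {d : ℕ} (u : Matrix.unitaryGroup (Fin d) ℂ) (M : Matrix (Fin d) (Fin d) ℂ) :
    hs2 (M * u.val) = hs2 M := by
  unfold hs2
  have h : u.val * u.val.conjTranspose = 1 := Matrix.mem_unitaryGroup_iff.1 u.2
  rw [Matrix.conjTranspose_mul, Matrix.mul_assoc, Matrix.trace_mul_comm, Matrix.mul_assoc,
    Matrix.mul_assoc, h, Matrix.mul_one]

/-! ### The null sequences -/

/-- the sequences of unitary matrices which converge to `1` in the normalised Hilbert-Schmidt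
norm -/
noncomputable def Nl (n : ℕ → ℕ) : Subgroup (∀ m, Matrix.unitaryGroup (Fin (n m)) ℂ) where
  carrier := {u | Tendsto (fun m => hs2 ((u m).val - 1)) atTop (𝓝 0)}
  one_mem' := by
    have : (fun m => hs2 (((1 : ∀ m, Matrix.unitaryGroup (Fin (n m)) ℂ) m).val - 1)) =
        fun _ => (0 : ℝ) := by
      funext m
      rw [Pi.one_apply, Matrix.UnitaryGroup.one_val, sub_self, hs2_zero]
    change Tendsto _ _ _
    rw [this]
    exact tendsto_const_nhds
  mul_mem' := by
    intro u v hu hv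
    change Tendsto _ _ _ at hu
    change Tendsto _ _ _ at hv
    change Tendsto _ _ _
    have h : Tendsto (fun m => 2 * hs2 ((v m).val - 1) + 2 * hs2 ((u m).val - 1)) atTop
        (𝓝 0) := by
      have := (hv.const_mul 2).add (hu.const_mul 2)
      simpa using this
    refine squeeze_zero (fun m => hs2_nonneg _) (fun m => ?_) h
    have e : ((u * v) m).val - 1 = (u m).val * ((v m).val - 1) + ((u m).val - 1) := by
      rw [Pi.mul_apply, Matrix.UnitaryGroup.mul_val, Matrix.mul_sub, Matrix.mul_one]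
      abel
    rw [e]
    refine (hs2_add_le _ _).trans ?_
    rw [hs2_mul_left]
  inv_mem' := by
    intro u hu
    change Tendsto _ _ _ at hu
    change Tendsto _ _ _
    refine hu.congr fun m => ?_
    have e : (u m).val - 1 = -((u m).val * ((u⁻¹ m).val - 1)) := by
      rw [Matrix.mul_sub, Matrix.mul_one, ← Matrix.UnitaryGroup.mul_val, Pi.inv_apply,
        mul_inv_cancel, Matrix.UnitaryGroup.one_val]
      abel
    rw [e, hs2_neg, hs2_mul_left]

instance (n : ℕ → ℕ) : (Nl n).Normal where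
  conj_mem := by
    intro u hu g
    change Tendsto _ _ _ at hu
    change Tendsto _ _ _
    refine hu.congr fun m => ?_
    have e : ((g * u * g⁻¹) m).val - 1 = (g m).val * ((u m).val - 1) * ((g⁻¹) m).val := by
      have e1 : (g m).val * ((g⁻¹) m).val = 1 := by
        rw [← Matrix.UnitaryGroup.mul_val, Pi.inv_apply, mul_inv_cancel,
          Matrix.UnitaryGroup.one_val]
      have e2 : ((g * u * g⁻¹) m).val = (g m).val * (u m).val * ((g⁻¹) m).val := rfl
      rw [Matrix.mul_sub, Matrix.mul_one, Matrix.sub_mul, e1, e2]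
    rw [e, hs2_mul_right, hs2_mul_left]

lemma mem_Nl {n : ℕ → ℕ} (u : ∀ m, Matrix.unitaryGroup (Fin (n m)) ℂ) :
    u ∈ Nl n ↔ Tendsto (fun m => hs2 ((u m).val - 1)) atTop (𝓝 0) := Iff.rfl

/-! ### Permutation matrices -/

section

variable {Y : Type} [Fintype Y] [DecidableEq Y]

/-- the permutation matrix -/
noncomputable def Pm (s : Equiv.Perm Y) : Matrix (Fin (Fintype.card Y)) (Fin (Fintype.card Y)) ℂ :=
  Matrix.of fun i j => if (Fintype.equivFin Y).symm i = s ((Fintype.equivFin Y).symm j) then 1 else 0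

lemma Pm_mul (s t : Equiv.Perm Y) : Pm (s * t) = Pm s * Pm t := by
  ext i k
  rw [Matrix.mul_apply]
  unfold Pm
  simp only [Matrix.of_apply]
  rw [sum_eq_single (Fintype.equivFin Y (t ((Fintype.equivFin Y).symm k)))]
  · rw [Equiv.symm_apply_apply, if_pos rfl, mul_one]
    rfl
  · intro j _ hj
    have : (Fintype.equivFin Y).symm j ≠ t ((Fintype.equivFin Y).symm k) := by
      intro h
      apply hj
      rw [← h, Equiv.apply_symm_apply]
    rw [if_neg this, mul_zero]
  · intro h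
    exact absurd (mem_univ _) h

lemma Pm_one : Pm (1 : Equiv.Perm Y) = 1 := by
  ext i j
  unfold Pm
  rw [Matrix.of_apply, Matrix.one_apply, Equiv.Perm.one_apply]
  simp only [EmbeddingLike.apply_eq_iff_eq]

lemma Pm_star (s : Equiv.Perm Y) : (Pm s).conjTranspose = Pm s⁻¹ := by
  ext i j
  rw [Matrix.conjTranspose_apply]
  unfold Pm
  simp only [Matrix.of_apply]
  by_cases h : (Fintype.equivFin Y).symm j = s ((Fintype.equivFin Y).symm i)
  · have h' : (Fintype.equivFin Y).symm i = s⁻¹ ((Fintype.equivFin Y).symm j) := by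
      rw [h]; simp
    rw [if_pos h, if_pos h', star_one]
  · have h' : (Fintype.equivFin Y).symm i ≠ s⁻¹ ((Fintype.equivFin Y).symm j) := by
      intro h2
      apply h
      rw [h2]; simp
    rw [if_neg h, if_neg h', star_zero]

lemma Pm_mem (s : Equiv.Perm Y) : Pm s ∈ Matrix.unitaryGroup (Fin (Fintype.card Y)) ℂ := by
  rw [Matrix.mem_unitaryGroup_iff, Matrix.star_eq_conjTranspose, Pm_star, ← Pm_mul, mul_inv_cancel,
    Pm_one]

lemma trace_Pm (s : Equiv.Perm Y) : (Pm s).trace = ((univ.filter fun y => s y = y).card : ℂ) := by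
  unfold Matrix.trace Pm
  simp only [Matrix.diag_apply, Matrix.of_apply]
  rw [← Equiv.sum_comp (Fintype.equivFin Y)]
  simp only [Equiv.symm_apply_apply]
  rw [← sum_filter, sum_const, nsmul_eq_mul, mul_one]
  congr 2
  ext y
  simp only [mem_filter, mem_univ, true_and]
  exact eq_comm

/-- the Hilbert-Schmidt distance of two permutation matrices -/
lemma hs2_Pm (s t : Equiv.Perm Y) :
    hs2 (Pm s - Pm t) = 2 * ((univ.filter fun y => s y ≠ t y).card : ℝ) / Fintype.card Y := by
  unfold hs2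
  congr 1
  rw [Matrix.conjTranspose_sub, Matrix.sub_mul, Matrix.mul_sub, Matrix.mul_sub, Pm_star, Pm_star,
    ← Pm_mul, ← Pm_mul, ← Pm_mul, ← Pm_mul, inv_mul_cancel, inv_mul_cancel, Matrix.trace_sub,
    Matrix.trace_sub, Matrix.trace_sub, trace_Pm, trace_Pm, trace_Pm]
  have e1 : (univ.filter fun y => (s⁻¹ * t) y = y) = univ.filter fun y => s y = t y := by
    ext y
    simp only [mem_filter, mem_univ, true_and, Equiv.Perm.mul_apply, Equiv.Perm.inv_eq_iff_eq]
    exact eq_comm
  have e2 : (univ.filter fun y => (t⁻¹ * s) y = y) = univ.filter fun y => s y = t y := by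
    ext y
    simp only [mem_filter, mem_univ, true_and, Equiv.Perm.mul_apply, Equiv.Perm.inv_eq_iff_eq]
  have e3 : (univ.filter fun y : Y => (1 : Equiv.Perm Y) y = y) = univ := by
    ext y
    simp
  rw [e1, e2, e3]
  have h := card_filter_add_card_filter_not (s := (univ : Finset Y)) (fun y => s y = t y)
  have h' : ((univ.filter fun y => s y = t y).card : ℝ) +
      ((univ.filter fun y => ¬ s y = t y).card : ℝ) = ((univ : Finset Y).card : ℝ) := by
    exact_mod_cast h
  simp only [Complex.sub_re, Complex.natCast_re]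
  change _ = 2 * ((univ.filter fun y => ¬ s y = t y).card : ℝ)
  linarith

/-- the permutation matrices as unitary matrices -/
noncomputable def PU : Equiv.Perm Y →* Matrix.unitaryGroup (Fin (Fintype.card Y)) ℂ where
  toFun s := ⟨Pm s, Pm_mem s⟩
  map_one' := Subtype.ext Pm_one
  map_mul' s t := Subtype.ext (Pm_mul s t)

lemma PU_val (s : Equiv.Perm Y) : (PU s).val = Pm s := rfl

end

lemma hs2_inv_mul {d : ℕ} (u v : Matrix.unitaryGroup (Fin d) ℂ) :
    hs2 ((u⁻¹ * v).val - 1) = hs2 (v.val - u.val) := by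
  have e1 : u⁻¹.val * u.val = 1 := by
    rw [← Matrix.UnitaryGroup.mul_val, inv_mul_cancel, Matrix.UnitaryGroup.one_val]
  have e : (u⁻¹ * v).val - 1 = u⁻¹.val * (v.val - u.val) := by
    rw [Matrix.mul_sub, e1]
    rfl
  rw [e, hs2_mul_left]

/-! ### The finite actions -/

section

variable {K : Type} [Group K] (φ : K →* K) {X : Type} (α : K →* Equiv.Perm X) (m : ℕ)

/-- the action of `K` on `Fin (m + 1) × X` -/
def act : K →* Equiv.Perm (Fin (m + 1) × X) where
  toFun a :=
    { toFun := fun y => (y.1, α (φ^[(y.1 : ℕ)] a) y.2)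
      invFun := fun y => (y.1, (α (φ^[(y.1 : ℕ)] a))⁻¹ y.2)
      left_inv := fun y => by simp
      right_inv := fun y => by simp }
  map_one' := by
    ext1 y
    change (y.1, α (φ^[(y.1 : ℕ)] 1) y.2) = y
    rw [iterate_map_one, map_one]
    rfl
  map_mul' a b := by
    ext1 y
    change (y.1, α (φ^[(y.1 : ℕ)] (a * b)) y.2) =
      (y.1, α (φ^[(y.1 : ℕ)] a) (α (φ^[(y.1 : ℕ)] b) y.2))
    rw [iterate_map_mul, map_mul]
    rfl

lemma act_apply (a : K) (y : Fin (m + 1) × X) :
    act φ α m a y = (y.1, α (φ^[(y.1 : ℕ)] a) y.2) := rfl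

/-- the rotation of `Fin (m + 1) × X` -/
def rot (X : Type) (m : ℕ) : Equiv.Perm (Fin (m + 1) × X) :=
  Equiv.prodCongr (Equiv.addRight 1) (Equiv.refl X)

lemma rot_apply (y : Fin (m + 1) × X) : rot X m y = (y.1 + 1, y.2) := rfl

variable [Fintype X] [DecidableEq X]

lemma card_conj (a : K) : (univ.filter fun y : Fin (m + 1) × X =>
    act φ α m (φ a) y ≠ ((rot X m)⁻¹ * act φ α m a * rot X m) y).card ≤ Fintype.card X := by
  have hsub : (univ.filter fun y : Fin (m + 1) × X =>
      act φ α m (φ a) y ≠ ((rot X m)⁻¹ * act φ α m a * rot X m) y) ⊆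
      (univ : Finset X).image fun x => (Fin.last m, x) := by
    intro y hy
    rw [mem_filter] at hy
    rw [mem_image]
    refine ⟨y.2, mem_univ _, ?_⟩
    by_contra hne
    apply hy.2
    have hlt : y.1 < Fin.last m := by
      refine lt_of_le_of_ne (Fin.le_last _) fun h => hne ?_
      rw [← h]
    have hval : ((y.1 + 1 : Fin (m + 1)) : ℕ) = (y.1 : ℕ) + 1 := Fin.val_add_one_of_lt hlt
    rw [Equiv.Perm.mul_apply, Equiv.Perm.mul_apply, Equiv.Perm.eq_inv_iff_eq, rot_apply, rot_apply,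
      act_apply, act_apply]
    simp only
    rw [hval, Function.iterate_succ_apply]
  calc _ ≤ ((univ : Finset X).image fun x => (Fin.last m, x)).card := card_le_card hsub
    _ ≤ (univ : Finset X).card := card_image_le
    _ = Fintype.card X := rfl

lemma card_moved (k₀ : K) (h : ∀ j ≤ m,
    2 * (univ.filter fun x => α (φ^[j] k₀) x = x).card ≤ Fintype.card X) :
    Fintype.card (Fin (m + 1) × X) ≤ 2 * (univ.filter fun y : Fin (m + 1) × X =>
      act φ α m k₀ y ≠ (1 : Equiv.Perm (Fin (m + 1) × X)) y).card := by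
  have h1 := card_filter_add_card_filter_not (s := (univ : Finset (Fin (m + 1) × X)))
    (fun y => act φ α m k₀ y = (1 : Equiv.Perm (Fin (m + 1) × X)) y)
  have h2 : 2 * (univ.filter fun y : Fin (m + 1) × X =>
      act φ α m k₀ y = (1 : Equiv.Perm (Fin (m + 1) × X)) y).card ≤
      Fintype.card (Fin (m + 1) × X) := by
    rw [card_filter, Fintype.sum_prod_type, mul_sum, Fintype.card_prod]
    calc _ ≤ ∑ _j : Fin (m + 1), Fintype.card X := by
          refine sum_le_sum fun j _ => ?_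
          refine le_trans (le_of_eq ?_) (h j (Nat.lt_succ_iff.1 j.2))
          rw [card_filter]
          congr 1
          refine sum_congr rfl fun x _ => ?_
          simp [act_apply]
      _ = Fintype.card (Fin (m + 1)) * Fintype.card X := by
          rw [sum_const, card_univ, smul_eq_mul]
  have h3 : (univ.filter fun y : Fin (m + 1) × X =>
      ¬ act φ α m k₀ y = (1 : Equiv.Perm (Fin (m + 1) × X)) y).card =
      (univ.filter fun y : Fin (m + 1) × X =>
      act φ α m k₀ y ≠ (1 : Equiv.Perm (Fin (m + 1) × X)) y).card := rfl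
  rw [h3, card_univ] at h1
  omega

end

/-! ### The proof of (PERM) -/

theorem t_perm : S_PERM := by
  intro K G _ _ φ ι h huniv k₀ hk
  choose X iF iD iN α hα using hk
  set n : ℕ → ℕ := fun m => Fintype.card (Fin (m + 1) × X m) with hn
  have hn0 : ∀ m, 0 < n m := fun m => Fintype.card_pos
  -- the homomorphisms
  let f : K →* (∀ m, Matrix.unitaryGroup (Fin (n m)) ℂ) :=
    MonoidHom.pi fun m => PU.comp (act φ (α m) m)
  let t : ∀ m, Matrix.unitaryGroup (Fin (n m)) ℂ := fun m => PU (rot (X m) m)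
  have hf : ∀ a m, f a m = PU (act φ (α m) m a) := fun _ _ => rfl
  have hrel : ∀ a, ((t : (∀ m, Matrix.unitaryGroup (Fin (n m)) ℂ) ⧸ Nl n))⁻¹ *
      ((QuotientGroup.mk' (Nl n)).comp f) a * (t : (∀ m, Matrix.unitaryGroup (Fin (n m)) ℂ) ⧸ Nl n) =
      ((QuotientGroup.mk' (Nl n)).comp f) (φ a) := by
    intro a
    change (((t⁻¹ * f a * t : ∀ m, Matrix.unitaryGroup (Fin (n m)) ℂ)) :
      (∀ m, Matrix.unitaryGroup (Fin (n m)) ℂ) ⧸ Nl n) = ((f (φ a) :
      ∀ m, Matrix.unitaryGroup (Fin (n m)) ℂ) : (∀ m, Matrix.unitaryGroup (Fin (n m)) ℂ) ⧸ Nl n)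
    rw [QuotientGroup.eq, mem_Nl]
    have hlim : Tendsto (fun m : ℕ => 2 / ((m : ℝ) + 1)) atTop (𝓝 0) := by
      have := tendsto_one_div_add_atTop_nhds_zero_nat.const_mul (2 : ℝ)
      rw [mul_zero] at this
      refine this.congr fun m => ?_
      ring
    refine squeeze_zero (fun m => hs2_nonneg _) (fun m => ?_) hlim
    have e1 : ((t⁻¹ * f a * t)⁻¹ * f (φ a)) m =
        (PU ((rot (X m) m)⁻¹ * act φ (α m) m a * rot (X m) m))⁻¹ *
        PU (act φ (α m) m (φ a)) := by
      rw [Pi.mul_apply, Pi.inv_apply, Pi.mul_apply, Pi.mul_apply, Pi.inv_apply, map_mul, map_mul,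
        map_inv, hf, hf]
    rw [e1, hs2_inv_mul, PU_val, PU_val, hs2_Pm]
    have hc := card_conj φ (α m) m a
    have hX : (0 : ℝ) < Fintype.card (X m) := by exact_mod_cast Fintype.card_pos
    have hm : (0 : ℝ) < (m : ℝ) + 1 := by positivity
    have e2 : (Fintype.card (Fin (m + 1) × X m) : ℝ) = ((m : ℝ) + 1) * Fintype.card (X m) := by
      rw [Fintype.card_prod, Fintype.card_fin]
      push_cast
      ring
    rw [e2, div_le_div_iff₀ (by positivity) hm]
    have hc' : ((univ.filter fun y : Fin (m + 1) × X m =>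
        act φ (α m) m (φ a) y ≠ ((rot (X m) m)⁻¹ * act φ (α m) m a * rot (X m) m) y).card : ℝ) ≤
        Fintype.card (X m) := by exact_mod_cast hc
    have := mul_le_mul_of_nonneg_right hc' hm.le
    linarith
  obtain ⟨F, hF1, hF2⟩ := huniv _ ((QuotientGroup.mk' (Nl n)).comp f) _ hrel
  refine ⟨n, fun m g => (Quotient.out (F g)) m, ?_, ?_⟩
  · intro g g'
    have hout : ∀ x : (∀ m, Matrix.unitaryGroup (Fin (n m)) ℂ) ⧸ Nl n,
        ((Quotient.out x : ∀ m, Matrix.unitaryGroup (Fin (n m)) ℂ) :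
        (∀ m, Matrix.unitaryGroup (Fin (n m)) ℂ) ⧸ Nl n) = x := fun x => Quotient.out_eq x
    have e : ((Quotient.out (F (g * g')) : ∀ m, Matrix.unitaryGroup (Fin (n m)) ℂ) :
        (∀ m, Matrix.unitaryGroup (Fin (n m)) ℂ) ⧸ Nl n) =
        ((Quotient.out (F g) * Quotient.out (F g') : ∀ m, Matrix.unitaryGroup (Fin (n m)) ℂ) :
        (∀ m, Matrix.unitaryGroup (Fin (n m)) ℂ) ⧸ Nl n) := by
      rw [QuotientGroup.mk_mul, hout, hout, hout, map_mul]
    rw [QuotientGroup.eq, mem_Nl] at e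
    refine e.congr fun m => ?_
    rw [Pi.mul_apply, Pi.inv_apply, hs2_inv_mul, hs2_sub_comm]
    rfl
  · intro hlim
    have h1 : Quotient.out (F (ι k₀)) ∈ Nl n := hlim
    have h2 : F (ι k₀) = 1 := by
      rw [← QuotientGroup.out_eq' (F (ι k₀)), QuotientGroup.eq_one_iff]
      exact h1
    rw [hF1] at h2
    have h3 : f k₀ ∈ Nl n := (QuotientGroup.eq_one_iff _).1 h2
    rw [mem_Nl] at h3
    have h4 : ∀ m, (1 : ℝ) ≤ hs2 ((f k₀ m).val - 1) := by
      intro m
      have e : (1 : Matrix (Fin (n m)) (Fin (n m)) ℂ) = Pm (1 : Equiv.Perm (Fin (m + 1) × X m)) :=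
        Pm_one.symm
      rw [e, hf, PU_val, hs2_Pm, le_div_iff₀ (by exact_mod_cast hn0 m), one_mul]
      exact_mod_cast card_moved φ (α m) m k₀ (hα m)
    have h5 := ge_of_tendsto h3 (Eventually.of_forall h4)
    norm_num at h5

end Pool.Agent.N8.MX.PERM
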